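import Pool.Agent.J4.H17.ZC.Fun

/-!
# Functions on symmetric groups killed by symmetrization in the classes of a partition
-/

set_option autoImplicit false

namespace Pool.Agent.J4.H70.ZV

open Equiv Finset Pool.Agent.J4.H17.ZC

section

variable {I Θ : Type}

variable (I) in
/-- left translations -/
def lt0 : Perm I →* Module.End ℚ (Perm I → ℚ) where
  toFun π :=
    { toFun := fun f u => f (π⁻¹ * u)
      map_add' := fun _ _ => rfl
      map_smul' := fun _ _ => rfl }
  map_one' := by ext f u; simp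
  map_mul' π τ := by
    ext f u
    simp [mul_assoc]

theorem lt0_apply (π : Perm I) (f : Perm I → ℚ) (u : Perm I) : lt0 I π f u = f (π⁻¹ * u) := rfl

theorem perm_inv (π : Perm I) (m : I) : π (π⁻¹ m) = m := Equiv.apply_symm_apply π m

variable [Fintype I] [DecidableEq I]

/-- the functions killed by the symmetrization of `d θ + 1` elements with the label `θ` -/
def kil (lab : I → Θ) (d : Θ → ℕ) : Submodule ℚ (Perm I → ℚ) where
  carrier := {f | ∀ (θ : Θ) (T : Finset I), (∀ m ∈ T, lab m = θ) → T.card = d θ + 1 →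
    ∀ u, ∑ τ ∈ PT T, f (τ * u) = 0}
  zero_mem' := fun θ T _ _ u => by simp
  add_mem' := fun {f g} hf hg θ T h1 h2 u => by
    simp only [Pi.add_apply, Finset.sum_add_distrib, hf θ T h1 h2 u, hg θ T h1 h2 u, add_zero]
  smul_mem' := fun c f hf θ T h1 h2 u => by
    simp only [Pi.smul_apply, smul_eq_mul, ← Finset.mul_sum, hf θ T h1 h2 u, mul_zero]

theorem mem_kil {lab : I → Θ} {d : Θ → ℕ} {f : Perm I → ℚ} : f ∈ kil lab d ↔
    ∀ (θ : Θ) (T : Finset I), (∀ m ∈ T, lab m = θ) → T.card = d θ + 1 →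
    ∀ u, ∑ τ ∈ PT T, f (τ * u) = 0 := Iff.rfl

theorem lt0_kil {lab : I → Θ} {d : Θ → ℕ} {f : Perm I → ℚ} (hf : f ∈ kil lab d) {π : Perm I}
    (hπ : ∀ m, lab (π m) = lab m) : lt0 I π f ∈ kil lab d := by
  intro θ T h1 h2 u
  have hπ' : ∀ m, lab (π⁻¹ m) = lab m := fun m => by
    conv_rhs => rw [← perm_inv π m, hπ]
  have h := hf θ (T.map (π⁻¹).toEmbedding) (by
    intro m hm
    rw [mem_map] at hm
    obtain ⟨x, hx, rfl⟩ := hm
    exact (hπ' x).trans (h1 x hx)) (by rw [card_map, h2]) (π⁻¹ * u)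
  rw [← sum_conj] at h
  rw [← h]
  refine Finset.sum_congr rfl fun τ _ => ?_
  rw [lt0_apply]
  congr 1
  group

theorem color_aux (lab : I → Θ) (d : Θ → ℕ) (W : Submodule ℚ (Perm I → ℚ))
    (hW : W ≤ kil lab d) (hst : ∀ i j, lab i = lab j → ∀ v ∈ W, lt0 I (swap i j) v ∈ W)
    (hne : ∃ v ∈ W, v ≠ 0) (S : Finset Θ) :
    ∃ c : I → ℕ, (∀ i, lab i ∈ S → c i < d (lab i)) ∧ ∃ v ∈ W, v ≠ 0 ∧
      ∀ i j, i ≠ j → lab i = lab j → lab i ∈ S → c i = c j → lt0 I (swap i j) v = -v := by
  classical
  induction S using Finset.induction_on with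
  | empty =>
    obtain ⟨v, hv, hv0⟩ := hne
    exact ⟨fun _ => 0, fun i hi => absurd hi (Finset.notMem_empty _), v, hv, hv0,
      fun i j _ _ hi => absurd hi (Finset.notMem_empty _)⟩
  | insert θ S hθ ih =>
    obtain ⟨c, hc, v, hv, hv0, hcv⟩ := ih
    let W1 : Submodule ℚ (Perm I → ℚ) :=
      { carrier := {v | v ∈ W ∧ ∀ i j, i ≠ j → lab i = lab j → lab i ∈ S → c i = c j →
          lt0 I (swap i j) v = -v}
        zero_mem' := ⟨W.zero_mem, fun i j _ _ _ _ => by rw [map_zero, neg_zero]⟩
        add_mem' := fun {a b} ha hb => ⟨W.add_mem ha.1 hb.1, fun i j h1 h2 h3 h4 => by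
          rw [map_add, ha.2 i j h1 h2 h3 h4, hb.2 i j h1 h2 h3 h4]; abel⟩
        smul_mem' := fun r a ha => ⟨W.smul_mem r ha.1, fun i j h1 h2 h3 h4 => by
          rw [map_smul, ha.2 i j h1 h2 h3 h4, smul_neg]⟩ }
    obtain ⟨c2, hc2, v2, hv2, hv20, hcv2⟩ := exists_coloring (lt0 I) (d θ)
      (univ.filter fun i => lab i = θ) W1 (by
        intro i hi j hj v hv
        have hi' := (mem_filter.1 hi).2
        have hj' := (mem_filter.1 hj).2
        refine ⟨hst i j (hi'.trans hj'.symm) v hv.1, ?_⟩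
        intro a b hab h1 h2 h3
        have haθ : lab a ≠ θ := fun h => hθ (h ▸ h2)
        have hbθ : lab b ≠ θ := fun h => haθ (h1.trans h)
        have hia : i ≠ a := fun h => haθ (h ▸ hi')
        have hja : j ≠ a := fun h => haθ (h ▸ hj')
        have hib : i ≠ b := fun h => hbθ (h ▸ hi')
        have hjb : j ≠ b := fun h => hbθ (h ▸ hj')
        rw [rho_swap_swap (lt0 I) a b i j v, swap_apply_of_ne_of_ne hia hib,
          swap_apply_of_ne_of_ne hja hjb, hv.2 a b hab h1 h2 h3, map_neg]) ⟨v, ⟨hv, hcv⟩, hv0⟩ (by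
        intro T hT hTc v hv hfix
        have h1 : ∀ τ ∈ PT T, ∀ u, v (τ * u) = v u := by
          intro τ hτ
          refine PT_induction (P := fun τ => ∀ u, v (τ * u) = v u) (by simp) ?_ hτ
          intro i hi j hj τ h u
          have h3 := congrFun (hfix i hi j hj) (τ * u)
          rw [lt0_apply, swap_inv, ← mul_assoc] at h3
          rw [h3, h]
        ext u
        have h2 := hW hv.1 θ T (fun m hm => (mem_filter.1 (hT hm)).2) hTc u
        rw [Finset.sum_congr rfl fun τ hτ => h1 τ hτ u, Finset.sum_const, nsmul_eq_mul,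
          mul_eq_zero] at h2
        rcases h2 with h2 | h2
        · exfalso
          have h3 : (PT T).card = 0 := by exact_mod_cast h2
          rw [Finset.card_eq_zero] at h3
          have h4 : (1 : Perm I) ∈ PT T := by rw [mem_PT]; intro x _; rfl
          rw [h3] at h4
          exact absurd h4 (Finset.notMem_empty _)
        · exact h2)
    refine ⟨fun i => if lab i = θ then c2 i else c i, ?_, v2, hv2.1, hv20, ?_⟩
    · intro i hi
      by_cases h : lab i = θ
      · simp only [h, if_true]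
        exact hc2 i (mem_filter.2 ⟨mem_univ _, h⟩)
      · simp only [h, if_false]
        exact hc i ((mem_insert.1 hi).resolve_left h)
    · intro i j hij h1 h2 h3
      by_cases h : lab i = θ
      · have h' : lab j = θ := h1.symm.trans h
        simp only [h, h', if_true] at h3
        exact hcv2 i (mem_filter.2 ⟨mem_univ _, h⟩) j (mem_filter.2 ⟨mem_univ _, h'⟩) hij h3
      · have h' : lab j ≠ θ := fun h'' => h (h1.trans h'')
        simp only [h, h', if_false] at h3
        exact hv2.2 i j hij h1 ((mem_insert.1 h2).resolve_left h) h3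

/-- A nonzero space of functions which is stable under the exchanges of elements with equal labels
contains a nonzero function which is alternating on the classes of a refined partition. -/
theorem color (lab : I → Θ) (d : Θ → ℕ) (W : Submodule ℚ (Perm I → ℚ))
    (hW : W ≤ kil lab d) (hst : ∀ i j, lab i = lab j → ∀ v ∈ W, lt0 I (swap i j) v ∈ W)
    (hne : ∃ v ∈ W, v ≠ 0) :
    ∃ c : I → ℕ, (∀ i, c i < d (lab i)) ∧ ∃ v ∈ W, v ≠ 0 ∧
      ∀ i j, i ≠ j → lab i = lab j → c i = c j → ∀ u, v (swap i j * u) = - v u := by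
  classical
  obtain ⟨c, hc, v, hv, hv0, h⟩ := color_aux lab d W hW hst hne (univ.image lab)
  refine ⟨c, fun i => hc i (mem_image_of_mem _ (mem_univ _)), v, hv, hv0, ?_⟩
  intro i j hij h1 h2 u
  have h3 := congrFun (h i j hij h1 (mem_image_of_mem _ (mem_univ _)) h2) u
  rwa [lt0_apply, swap_inv, Pi.neg_apply] at h3

/-- The values of an alternating function at the translates by permutations which preserve the
classes. -/
theorem alt {γ : Type} (C : I → γ) (v : Perm I → ℚ)
    (h : ∀ i j, i ≠ j → C i = C j → ∀ u, v (swap i j * u) = - v u) :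
    ∀ (n : ℕ) (π : Perm I), π.support.card = n → (∀ i, C (π i) = C i) →
      ∀ u, v (π * u) = ((Perm.sign π : ℤ) : ℚ) * v u := by
  intro n
  induction n using Nat.strong_induction_on with
  | _ n ih =>
    intro π hn hπ u
    by_cases h1 : ∃ x, π x ≠ x
    · obtain ⟨x, hx⟩ := h1
      have h2 := Perm.card_support_swap_mul hx
      have h3 : ∀ i, C ((swap x (π x) * π) i) = C i := by
        intro i
        rw [Perm.mul_apply]
        rcases eq_or_ne (π i) x with h4 | h4
        · rw [h4, swap_apply_left, hπ, ← h4, hπ]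
        · rcases eq_or_ne (π i) (π x) with h5 | h5
          · rw [h5, swap_apply_right, ← hπ x, ← h5, hπ]
          · rw [swap_apply_of_ne_of_ne h4 h5, hπ]
      have h4 := ih _ (hn ▸ h2) (swap x (π x) * π) rfl h3 u
      have h5 := h x (π x) (Ne.symm hx) (hπ x).symm (swap x (π x) * π * u)
      have h6 : swap x (π x) * (swap x (π x) * π * u) = π * u := by
        rw [← mul_assoc, ← mul_assoc, swap_mul_self, one_mul]
      rw [h6, h4, map_mul, Perm.sign_swap (Ne.symm hx)] at h5
      rw [h5]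
      push_cast
      ring
    · push Not at h1
      have h2 : π = 1 := by ext x; exact h1 x
      rw [h2]
      simp

/-- A function on the symmetric group killed by symmetrization of `d θ + 1` elements with the label
`θ`, and with further symmetries, is zero if for all colourings there is a symmetry with the wrong
sign. -/
theorem lemA (lab : I → Θ) (d : Θ → ℕ) (f : Perm I → ℚ) (hf : f ∈ kil lab d)
    (H : ∀ (κ : I → Θ) (c : I → ℕ), (∀ i, c i < d (κ i)) → ∃ (σ : Perm I) (ε : (I → Θ) → ℚ),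
      (∀ u : Perm I, f (u * σ) = ε (fun i => lab (u i)) * f u) ∧ (∀ i, κ (σ i) = κ i) ∧
      (∀ i, c (σ i) = c i) ∧ ε κ ≠ ((Perm.sign σ : ℤ) : ℚ)) : f = 0 := by
  by_contra hf0
  let W : Submodule ℚ (Perm I → ℚ) :=
    { carrier := {v | v ∈ kil lab d ∧ ∀ (σ : Perm I) (ε : (I → Θ) → ℚ),
        (∀ u : Perm I, f (u * σ) = ε (fun i => lab (u i)) * f u) →
        ∀ u : Perm I, v (u * σ) = ε (fun i => lab (u i)) * v u}
      zero_mem' := ⟨(kil lab d).zero_mem, fun σ ε _ u => by simp⟩
      add_mem' := fun {a b} ha hb => ⟨(kil lab d).add_mem ha.1 hb.1, fun σ ε h u => by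
        rw [Pi.add_apply, Pi.add_apply, ha.2 σ ε h, hb.2 σ ε h, mul_add]⟩
      smul_mem' := fun r a ha => ⟨(kil lab d).smul_mem r ha.1, fun σ ε h u => by
        rw [Pi.smul_apply, Pi.smul_apply, ha.2 σ ε h, smul_eq_mul, smul_eq_mul]; ring⟩ }
  obtain ⟨c, hc, v, hv, hv0, hcv⟩ := color lab d W (fun v hv => hv.1) (by
    intro i j hij v hv
    have h1 : ∀ m, lab (swap i j m) = lab m := by
      intro m
      rcases eq_or_ne m i with rfl | h1
      · rw [swap_apply_left, hij]
      · rcases eq_or_ne m j with rfl | h2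
        · rw [swap_apply_right, hij]
        · rw [swap_apply_of_ne_of_ne h1 h2]
    refine ⟨lt0_kil hv.1 h1, ?_⟩
    intro σ ε h u
    rw [lt0_apply, lt0_apply, ← mul_assoc, hv.2 σ ε h]
    congr 2
    funext m
    rw [swap_inv, Perm.mul_apply, h1]) ⟨f, ⟨hf, fun σ ε h u => h u⟩, hf0⟩
  apply hv0
  funext u
  by_contra hu
  have hu' : v u ≠ 0 := hu
  obtain ⟨σ, ε, h1, h2, h3, h4⟩ := H (fun i => lab (u i)) (fun i => c (u i)) (fun i => hc (u i))
  have h5 := hv.2 σ ε h1 u
  have h6 := alt (fun m => (lab m, c m)) v (fun i j hij h => hcv i j hij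
    (congrArg Prod.fst h) (congrArg Prod.snd h)) _ (u * σ * u⁻¹) rfl (by
      intro i
      have e1 := h2 (u⁻¹ i)
      have e2 := h3 (u⁻¹ i)
      rw [perm_inv] at e1 e2
      rw [Perm.mul_apply, Perm.mul_apply]
      exact Prod.ext e1 e2) u
  rw [inv_mul_cancel_right, h5] at h6
  apply h4
  have h7 : Perm.sign (u * σ * u⁻¹) = Perm.sign σ := by
    rw [map_mul, map_mul, Perm.sign_inv, mul_comm, ← mul_assoc, Int.units_mul_self, one_mul]
  rw [h7] at h6
  exact mul_right_cancel₀ hu' h6

end

end Pool.Agent.J4.H70.ZV
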