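import Pool.Agent.J4.H70.ZV.A
import Pool.Agent.J4.H82.PV.Q
import Pool.Agent.J4.H17.ZC.Sym

/-!
# Products of zero-cycles from the images of operators with vanishing theorems
-/

set_option autoImplicit false

open FF Equiv Pool.Agent.J4.H17.ZC Pool.Agent.J4.H82.PV

namespace Pool.Agent.J4.H70.ZV

section

variable {k : Type} [Field k] [CharZero k] {K : Type} [Field K] [Algebra k K]
  {I Θ : Type} [Fintype I] [DecidableEq I]

/-- the values of a functional at the products of the cycles `e θ P` for the elements, with their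
labels `θ` and points `P`, at the places given by a permutation -/
noncomputable def Phi (e : Θ → Place k K → (Place k K →₀ ℤ)) (lab : I → Θ) (w : I → Place k K)
    (l : ((I → Place k K) →₀ ℤ) →+ ℚ) (u : Perm I) : ℚ :=
  l (extG fun i => e (lab (u i)) (w (u i)))

theorem Phi_kil {e : Θ → Place k K → (Place k K →₀ ℤ)} {d : Θ → ℕ}
    (hv : ∀ θ, Van k (e θ) (d θ)) (lab : I → Θ) (w : I → Place k K)
    (l : ((I → Place k K) →₀ ℤ) →+ ℚ) (hl : ∀ r ∈ RatEq ((curve k K).pow I), l r = 0) :
    Phi e lab w l ∈ kil lab d := by
  classical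
  intro θ T hT hTc u
  have h1 := van_multi (hv θ) (T.map (u⁻¹).toEmbedding) (by rw [Finset.card_map, hTc])
    (fun i => w (u i)) l hl (fun i => e (lab (u i)) (w (u i)))
  have h2 := sum_conj (T.map (u⁻¹).toEmbedding) u fun τ => Phi e lab w l (τ * u)
  rw [Finset.map_map] at h2
  have e1 : (u⁻¹).toEmbedding.trans u.toEmbedding = Function.Embedding.refl I := by
    ext x; simp
  rw [e1, Finset.map_refl] at h2
  rw [← h2, ← h1]
  refine Finset.sum_congr rfl fun τ hτ => ?_
  rw [mem_PT] at hτ
  unfold Phi
  congr 2
  funext i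
  have e2 : (u * τ * u⁻¹ * u) i = u (τ i) := by
    rw [inv_mul_cancel_right]; rfl
  rw [e2]
  by_cases hi : i ∈ T.map (u⁻¹).toEmbedding
  · rw [if_pos hi]
    have h3 : τ i ∈ T.map (u⁻¹).toEmbedding := by
      by_contra h4
      have h5 := hτ _ h4
      exact h4 (by rw [τ.injective h5]; exact hi)
    rw [Finset.mem_map] at h3
    obtain ⟨x, hx, hx'⟩ := h3
    have h4 : u (τ i) = x := by
      rw [← hx']
      exact perm_inv u x
    rw [h4, hT x hx]
  · rw [if_neg hi, hτ i hi]

end

section pairs

variable {C : Type} {n : ℕ}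

theorem px_apply {A B : Type} (Z : A →₀ ℤ) (W : B →₀ ℤ) (s : A) (t : B) :
    px Z W (s, t) = Z s * W t := by
  classical
  induction Z using Finsupp.induction_linear with
  | zero => simp [px]
  | add u v hu hv => rw [px_add_left, Finsupp.add_apply, Finsupp.add_apply, hu, hv, add_mul]
  | single a m =>
    induction W using Finsupp.induction_linear with
    | zero =>
      have : px (Finsupp.single a m) (0 : B →₀ ℤ) = 0 := (pxHom (Finsupp.single a m)).map_zero
      rw [this]
      simp
    | add u v hu hv => rw [px_add_right, Finsupp.add_apply, Finsupp.add_apply, hu, hv, mul_add]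
    | single b m' =>
      rw [px_single_single, Finsupp.single_apply, Finsupp.single_apply, Finsupp.single_apply]
      by_cases h1 : a = s <;> by_cases h2 : b = t <;> simp [h1, h2]

theorem map_FF2 (y : Fin n × Bool → C →₀ ℤ) :
    Finsupp.mapDomain FF2 (extG y) = extG fun i => px (y (i, false)) (y (i, true)) := by
  classical
  ext z
  rw [extG_apply]
  have hinj : Function.Injective (FF2 (C := C) (n := n)) := by
    intro w w' h
    funext x
    obtain ⟨i, b⟩ := x
    have h1 := congrFun h i
    cases b
    · exact congrArg Prod.fst h1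
    · exact congrArg Prod.snd h1
  have h1 : z = FF2 (fun x => if x.2 then (z x.1).2 else (z x.1).1) := by
    funext i
    rfl
  conv_lhs => rw [h1]
  rw [Finsupp.mapDomain_apply hinj, extG_apply, Fintype.prod_prod_type]
  refine Finset.prod_congr rfl fun i _ => ?_
  rw [Fintype.prod_bool, px_apply]
  simp only [Bool.false_eq_true, if_false, if_true]
  ring

end pairs

end Pool.Agent.J4.H70.ZV
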