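import Pool.Agent.J4.H70.ZV.B

/-!
# Symmetries of products of zero-cycles of the isotypic parts under groups which act on the square
of a curve
-/

set_option autoImplicit false

open FF Equiv Pool.Agent.J4.H17 Pool.Agent.J4.H17.ZC Pool.Agent.J4.H82.PV

namespace Pool.Agent.J4.H70.ZV

section ops

variable {k : Type} [Field k] {K : Type} [Field K] [Algebra k K] {A : Type} [Group A] [Fintype A]
  (α : A →* (K ≃ₐ[k] K)) (o : Place k K)

open Classical in
/-- the cycle which is subtracted -/
noncomputable def om (χ : A →* ℤˣ) : Place k K →₀ ℤ := if χ = 1 then ex α χ o else 0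

/-- the weighted sum of the images of a point, made to vanish at `o` for the trivial character -/
noncomputable def op (χ : A →* ℤˣ) (P : Place k K) : Place k K →₀ ℤ := ex α χ P - om α o χ

omit [Fintype A] in
theorem act_act (a b : A) (P : Place k K) : act (α a) (act (α b) P) = act (α (a * b)) P := by
  rw [map_mul, act_mul]

theorem map_ex (a : A) (χ : A →* ℤˣ) (P : Place k K) :
    Finsupp.mapDomain (act (α a)) (ex α χ P) = ((χ a : ℤˣ) : ℤ) • ex α χ P := by
  unfold ex
  rw [Finsupp.mapDomain_finsetSum, Finset.smul_sum]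
  refine Fintype.sum_equiv (Equiv.mulLeft a) _ _ fun h => ?_
  rw [Finsupp.mapDomain_smul, Finsupp.mapDomain_single, act_act]
  change ((χ h : ℤˣ) : ℤ) • _ = ((χ a : ℤˣ) : ℤ) • ((χ (a * h) : ℤˣ) : ℤ) • _
  rw [map_mul χ, ← mul_smul, Units.val_mul, ← mul_assoc]
  have h1 : ((χ a : ℤˣ) : ℤ) * ((χ a : ℤˣ) : ℤ) = 1 := by
    rw [← Units.val_mul, Int.units_mul_self]; rfl
  rw [h1, one_mul]
  rfl

theorem map_om (a : A) (χ : A →* ℤˣ) :
    Finsupp.mapDomain (act (α a)) (om α o χ) = ((χ a : ℤˣ) : ℤ) • om α o χ := by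
  unfold om
  split_ifs with h
  · exact map_ex α a χ o
  · simp

theorem map_op (a : A) (χ : A →* ℤˣ) (P : Place k K) :
    Finsupp.mapDomain (act (α a)) (op α o χ P) = ((χ a : ℤˣ) : ℤ) • op α o χ P := by
  have h1 := map_sub (Finsupp.mapDomain.addMonoidHom (M := ℤ) (act (k := k) (α a))) (ex α χ P)
    (om α o χ)
  refine h1.trans ?_
  change Finsupp.mapDomain _ _ - Finsupp.mapDomain _ _ = _
  rw [map_ex, map_om, ← smul_sub]
  rfl

end ops

section inv

variable {A Y : Type} {n : ℕ}

/-- the functional does not change if a factor is replaced by its image under a symmetry -/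
theorem l_inv (q : A → Y) (g : A → A) (hg : ∀ x, q (g x) = q x)
    (l : ((Fin n → Y) →₀ ℤ) →+ ℚ) (z : Fin n → A →₀ ℤ) (i : Fin n) :
    l (Finsupp.mapDomain (fun x i => q (x i)) (extG z)) =
      l (Finsupp.mapDomain (fun x i => q (x i))
        (extG (Function.update z i (Finsupp.mapDomain g (z i))))) := by
  rw [map_extG, map_extG]
  congr 2
  funext j
  by_cases h : j = i
  · subst h
    rw [Function.update_self, ← Finsupp.mapDomain_comp]
    congr 1
    funext x
    exact (hg x).symm
  · rw [Function.update_of_ne h]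

theorem map_px {B C D : Type} (f : A → C) (g : B → D) (Z : A →₀ ℤ) (W : B →₀ ℤ) :
    Finsupp.mapDomain (fun x : A × B => (f x.1, g x.2)) (px Z W) =
      px (Finsupp.mapDomain f Z) (Finsupp.mapDomain g W) := by
  induction Z using Finsupp.induction_linear with
  | zero => simp [px]
  | add u v hu hv => rw [px_add_left, Finsupp.mapDomain_add, hu, hv, Finsupp.mapDomain_add,
      px_add_left]
  | single a m =>
    induction W using Finsupp.induction_linear with
    | zero =>
      have h1 : px (Finsupp.single a m) (0 : B →₀ ℤ) = 0 := (pxHom (Finsupp.single a m)).map_zero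
      have h2 : px (Finsupp.mapDomain f (Finsupp.single a m)) (0 : D →₀ ℤ) = 0 :=
        (pxHom (Finsupp.mapDomain f (Finsupp.single a m))).map_zero
      rw [h1, Finsupp.mapDomain_zero, Finsupp.mapDomain_zero, h2]
    | add u v hu hv => rw [px_add_right, Finsupp.mapDomain_add, hu, hv, Finsupp.mapDomain_add,
        px_add_right]
    | single b m' => simp only [px_single_single, Finsupp.mapDomain_single]

theorem map_px_swap {B C D : Type} (f : A → C) (g : B → D) (Z : A →₀ ℤ) (W : B →₀ ℤ) :
    Finsupp.mapDomain (fun x : A × B => (g x.2, f x.1)) (px Z W) =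
      px (Finsupp.mapDomain g W) (Finsupp.mapDomain f Z) := by
  induction Z using Finsupp.induction_linear with
  | zero =>
    have h2 : px (Finsupp.mapDomain g W) (0 : C →₀ ℤ) = 0 :=
      (pxHom (Finsupp.mapDomain g W)).map_zero
    rw [Finsupp.mapDomain_zero, h2]
    simp [px]
  | add u v hu hv => rw [px_add_left, Finsupp.mapDomain_add, hu, hv, Finsupp.mapDomain_add,
      px_add_right]
  | single a m =>
    induction W using Finsupp.induction_linear with
    | zero =>
      have h1 : px (Finsupp.single a m) (0 : B →₀ ℤ) = 0 := (pxHom (Finsupp.single a m)).map_zero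
      rw [h1]
      simp [px]
    | add u v hu hv => rw [px_add_right, Finsupp.mapDomain_add, hu, hv, Finsupp.mapDomain_add,
        px_add_left]
    | single b m' => simp only [px_single_single, Finsupp.mapDomain_single, mul_comm]

end inv

section sym

variable {k : Type} [Field k] [CharZero k] {K : Type} [Field K] [Algebra k K]
  {A : Type} [Group A] [Fintype A] (α : A →* (K ≃ₐ[k] K)) (o : Place k K)
  {Y : Type} (q : Place k K × Place k K → Y) {n : ℕ} (l : ((Fin n → Y) →₀ ℤ) →+ ℚ)
  (lab : Fin n × Bool → (A →* ℤˣ)) (w : Fin n × Bool → Place k K)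

/-- the values of the functional at the products -/
noncomputable def Ps (u : Perm (Fin n × Bool)) : ℚ :=
  l (Finsupp.mapDomain (fun x i => q (x i)) (extG fun i =>
    px (op α o (lab (u (i, false))) (w (u (i, false))))
      (op α o (lab (u (i, true))) (w (u (i, true))))))

omit [CharZero k] in
theorem Ps_eq (u : Perm (Fin n × Bool)) : Ps α o q l lab w u =
    Phi (op α o) lab w ((l.comp (Finsupp.mapDomain.addMonoidHom
      fun (x : Fin n → Place k K × Place k K) i => q (x i))).comp
        (Finsupp.mapDomain.addMonoidHom FF2)) u := by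
  unfold Ps Phi
  change _ = l (Finsupp.mapDomain _ (Finsupp.mapDomain FF2 _))
  rw [map_FF2]

omit [CharZero k] in
theorem Ps_D {d : A × A} (hq : ∀ x : Place k K × Place k K,
      q (act (α d.1) x.1, act (α d.2) x.2) = q x) (u : Perm (Fin n × Bool)) (i : Fin n) :
    Ps α o q l lab w u = ((lab (u (i, false)) d.1 : ℤˣ) : ℤ) * ((lab (u (i, true)) d.2 : ℤˣ) : ℤ) *
      Ps α o q l lab w u := by
  unfold Ps
  have h1 := l_inv q (fun x : Place k K × Place k K => (act (α d.1) x.1, act (α d.2) x.2)) hq l
    (fun i => px (op α o (lab (u (i, false))) (w (u (i, false))))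
      (op α o (lab (u (i, true))) (w (u (i, true))))) i
  conv_lhs => rw [h1]
  rw [map_px, map_op, map_op, px_smul_left, px_smul_right, smul_smul, ← extGM_apply,
    MultilinearMap.map_update_smul, Function.update_eq_self, extGM_apply, Finsupp.mapDomain_smul,
    map_zsmul, zsmul_eq_mul]
  push_cast
  rfl

omit [CharZero k] in
theorem Ps_S {e0 : A} (hq : ∀ x : Place k K × Place k K, q (x.2, act (α e0) x.1) = q x)
    (u : Perm (Fin n × Bool)) (i : Fin n) :
    Ps α o q l lab w u = ((lab (u (i, false)) e0 : ℤˣ) : ℤ) *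
      Ps α o q l lab w (u * ZC.flip i) := by
  unfold Ps
  have h1 := l_inv q (fun x : Place k K × Place k K => (x.2, act (α e0) x.1)) hq l
    (fun i => px (op α o (lab (u (i, false))) (w (u (i, false))))
      (op α o (lab (u (i, true))) (w (u (i, true))))) i
  conv_lhs => rw [h1]
  have h2 : Finsupp.mapDomain (fun x : Place k K × Place k K => (x.2, act (α e0) x.1))
      (px (op α o (lab (u (i, false))) (w (u (i, false))))
      (op α o (lab (u (i, true))) (w (u (i, true))))) =
      ((lab (u (i, false)) e0 : ℤˣ) : ℤ) • px (op α o (lab (u (i, true))) (w (u (i, true))))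
        (op α o (lab (u (i, false))) (w (u (i, false)))) := by
    have h3 := map_px_swap (act (α e0)) (fun x : Place k K => x)
      (op α o (lab (u (i, false))) (w (u (i, false))))
      (op α o (lab (u (i, true))) (w (u (i, true))))
    rw [h3, map_op, px_smul_right]
    congr 2
    exact Finsupp.mapDomain_id
  rw [h2, ← extGM_apply, MultilinearMap.map_update_smul, extGM_apply, Finsupp.mapDomain_smul,
    map_zsmul, zsmul_eq_mul]
  push_cast
  congr 3
  congr 1
  funext j
  by_cases h : j = i
  · subst h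
    have e1 : ZC.flip j (j, false) = (j, true) := by unfold ZC.flip; rw [swap_apply_left]
    have e2 : ZC.flip j (j, true) = (j, false) := by unfold ZC.flip; rw [swap_apply_right]
    rw [Function.update_self]
    change _ = px (op α o (lab (u (ZC.flip j (j, false)))) (w (u (ZC.flip j (j, false)))))
      (op α o (lab (u (ZC.flip j (j, true)))) (w (u (ZC.flip j (j, true)))))
    rw [e1, e2]
  · have e1 : ∀ b, ZC.flip i (j, b) = (j, b) := fun b => by
      unfold ZC.flip; rw [swap_apply_of_ne_of_ne (by simp [h]) (by simp [h])]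
    rw [Function.update_of_ne h]
    change _ = px (op α o (lab (u (ZC.flip i (j, false)))) (w (u (ZC.flip i (j, false)))))
      (op α o (lab (u (ZC.flip i (j, true)))) (w (u (ZC.flip i (j, true)))))
    rw [e1, e1]

/-- the alternating sum over the permutations of the pairs -/
noncomputable def As (u : Perm (Fin n × Bool)) : ℚ :=
  ∑ π : Perm (Fin n), ((Perm.sign π : ℤ) : ℚ) * Ps α o q l lab w (u * prm π)

omit [CharZero k] in
theorem As_P (u : Perm (Fin n × Bool)) (π : Perm (Fin n)) :
    As α o q l lab w (u * prm π) = ((Perm.sign π : ℤ) : ℚ) * As α o q l lab w u := by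
  unfold As
  rw [Finset.mul_sum]
  refine Fintype.sum_equiv (Equiv.mulLeft π) _ _ fun τ => ?_
  rw [Equiv.coe_mulLeft, Perm.sign_mul, prm_mul, mul_assoc u]
  have h1 : ((Perm.sign π : ℤ) : ℚ) * ((Perm.sign π : ℤ) : ℚ) = 1 := by
    have h2 : (Perm.sign π : ℤ) * (Perm.sign π : ℤ) = 1 := by
      rw [← Units.val_mul, Int.units_mul_self]; rfl
    exact_mod_cast h2
  push_cast
  rw [← mul_assoc, ← mul_assoc, ← mul_assoc, h1, one_mul]

omit [CharZero k] in
theorem As_D {d : A × A} (hq : ∀ x : Place k K × Place k K,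
      q (act (α d.1) x.1, act (α d.2) x.2) = q x) (u : Perm (Fin n × Bool)) (i : Fin n) :
    As α o q l lab w u = ((lab (u (i, false)) d.1 : ℤˣ) : ℤ) * ((lab (u (i, true)) d.2 : ℤˣ) : ℤ) *
      As α o q l lab w u := by
  unfold As
  rw [Finset.mul_sum]
  refine Finset.sum_congr rfl fun π _ => ?_
  conv_lhs => rw [Ps_D α o q l lab w hq (u * prm π) (π⁻¹ i)]
  have h1 : ∀ b, (u * prm π) (π⁻¹ i, b) = u (i, b) := by
    intro b
    rw [Perm.mul_apply, prm_apply, perm_inv]
  rw [h1, h1]
  ring

theorem prm_flip (π : Perm (Fin n)) (i : Fin n) : ZC.flip i * prm π = prm π * ZC.flip (π⁻¹ i) := by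
  unfold ZC.flip
  rw [Equiv.swap_mul_eq_mul_swap]
  rfl

omit [CharZero k] in
theorem As_S {e0 : A} (hq : ∀ x : Place k K × Place k K, q (x.2, act (α e0) x.1) = q x)
    (u : Perm (Fin n × Bool)) (i : Fin n) :
    As α o q l lab w (u * ZC.flip i) = ((lab (u (i, false)) e0 : ℤˣ) : ℤ) *
      As α o q l lab w u := by
  unfold As
  rw [Finset.mul_sum]
  refine Finset.sum_congr rfl fun π _ => ?_
  have h0 := Ps_S α o q l lab w hq (u * prm π) (π⁻¹ i)
  have h1 : ∀ b, (u * prm π) (π⁻¹ i, b) = u (i, b) := by
    intro b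
    rw [Perm.mul_apply, prm_apply, perm_inv]
  rw [h1] at h0
  rw [mul_assoc u, prm_flip, ← mul_assoc u, h0]
  have h2 : (((lab (u (i, false)) e0 : ℤˣ) : ℤ) : ℚ) * (((lab (u (i, false)) e0 : ℤˣ) : ℤ) : ℚ) = 1 := by
    have h2 : (((lab (u (i, false)) e0 : ℤˣ) : ℤ)) * (((lab (u (i, false)) e0 : ℤˣ) : ℤ)) = 1 := by
      rw [← Units.val_mul, Int.units_mul_self]; rfl
    exact_mod_cast h2
  rw [mul_left_comm, ← mul_assoc (((lab (u (i, false)) e0 : ℤˣ) : ℤ) : ℚ), h2, one_mul]

end sym

end Pool.Agent.J4.H70.ZV
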