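import Pool.Agent.J4.H70.ZV.C

/-!
# The pigeonhole principle for colourings of pairs, and the vanishing of alternating sums
-/

set_option autoImplicit false

open FF Equiv Pool.Agent.J4.H17 Pool.Agent.J4.H17.ZC Pool.Agent.J4.H82.PV

namespace Pool.Agent.J4.H70.ZV

section count

variable {Θ : Type} [Fintype Θ] {n : ℕ} (d : Θ → ℕ) (B : Θ → Θ → Prop)
  (s : Θ → Prop) [DecidableRel B] [DecidablePred s]

/-- the pairs of colours -/
def QQ : Finset ((Θ × Θ) × (ℕ × ℕ)) :=
  (((Finset.univ : Finset (Θ × Θ)).filter fun x => B x.1 x.2).sigma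
    fun x => Finset.range (d x.1) ×ˢ Finset.range (d x.2)).map
      ⟨fun x => (x.1, x.2), fun x y h => by
        cases x; cases y; simp only [Prod.mk.injEq] at h; obtain ⟨rfl, rfl⟩ := h; rfl⟩

theorem mem_QQ {x : (Θ × Θ) × (ℕ × ℕ)} : x ∈ QQ d B ↔
    B x.1.1 x.1.2 ∧ x.2.1 < d x.1.1 ∧ x.2.2 < d x.1.2 := by
  unfold QQ
  rw [Finset.mem_map]
  constructor
  · rintro ⟨y, hy, rfl⟩
    rw [Finset.mem_sigma, Finset.mem_filter, Finset.mem_product, Finset.mem_range,
      Finset.mem_range] at hy
    exact ⟨hy.1.2, hy.2⟩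
  · intro h
    refine ⟨⟨x.1, x.2⟩, ?_, rfl⟩
    rw [Finset.mem_sigma, Finset.mem_filter, Finset.mem_product, Finset.mem_range,
      Finset.mem_range]
    exact ⟨⟨Finset.mem_univ _, h.1⟩, h.2⟩

theorem card_QQ : (QQ d B).card =
    ∑ x ∈ (Finset.univ : Finset (Θ × Θ)).filter fun x => B x.1 x.2, d x.1 * d x.2 := by
  unfold QQ
  rw [Finset.card_map, Finset.card_sigma]
  refine Finset.sum_congr rfl fun x _ => ?_
  rw [Finset.card_product, Finset.card_range, Finset.card_range]

/-- the colours with a sign condition -/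
def RR' : Finset (Θ × ℕ) :=
  (((Finset.univ : Finset Θ).filter fun x => B x x ∧ s x).sigma fun x => Finset.range (d x)).map
      ⟨fun x => (x.1, x.2), fun x y h => by
        cases x; cases y; simp only [Prod.mk.injEq] at h; obtain ⟨rfl, rfl⟩ := h; rfl⟩

theorem mem_RR' {x : Θ × ℕ} : x ∈ RR' d B s ↔ (B x.1 x.1 ∧ s x.1) ∧ x.2 < d x.1 := by
  unfold RR'
  rw [Finset.mem_map]
  constructor
  · rintro ⟨y, hy, rfl⟩
    rw [Finset.mem_sigma, Finset.mem_filter, Finset.mem_range] at hy
    exact ⟨hy.1.2, hy.2⟩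
  · intro h
    refine ⟨⟨x.1, x.2⟩, ?_, rfl⟩
    rw [Finset.mem_sigma, Finset.mem_filter, Finset.mem_range]
    exact ⟨⟨Finset.mem_univ _, h.1⟩, h.2⟩

theorem card_RR' : (RR' d B s).card =
    ∑ x ∈ (Finset.univ : Finset Θ).filter fun x => B x x ∧ s x, d x := by
  unfold RR'
  rw [Finset.card_map, Finset.card_sigma]
  refine Finset.sum_congr rfl fun x _ => ?_
  rw [Finset.card_range]

/-- The pigeonhole principle. -/
theorem pigeon (hB : ∀ x y, B x y → B y x) (κ : Fin n × Bool → Θ) (c : Fin n × Bool → ℕ)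
    (hc : ∀ i, c i < d (κ i)) (h1 : ∀ i, B (κ (i, false)) (κ (i, true)))
    (h2 : ∀ i, κ (i, false) = κ (i, true) → c (i, false) = c (i, true) → ¬ s (κ (i, false)))
    (h3 : ∀ i j, κ (i, false) = κ (j, false) → c (i, false) = c (j, false) →
      κ (i, true) = κ (j, true) → c (i, true) = c (j, true) → i = j)
    (h4 : ∀ i j, κ (i, false) = κ (j, true) → c (i, false) = c (j, true) →
      κ (i, true) = κ (j, false) → c (i, true) = c (j, false) → i = j) :
    2 * n + (RR' d B s).card ≤ (QQ d B).card + (RR' d B fun x => ¬ s x).card := by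
  classical
  let G : (Fin n × Bool) ⊕ (Θ × ℕ) → ((Θ × Θ) × (ℕ × ℕ)) ⊕ (Θ × ℕ) := fun x =>
    match x with
    | Sum.inl (i, false) => Sum.inl ((κ (i, false), κ (i, true)), (c (i, false), c (i, true)))
    | Sum.inl (i, true) =>
      if κ (i, false) = κ (i, true) ∧ c (i, false) = c (i, true) then
        Sum.inr (κ (i, false), c (i, false))
      else Sum.inl ((κ (i, true), κ (i, false)), (c (i, true), c (i, false)))
    | Sum.inr x => Sum.inl ((x.1, x.1), (x.2, x.2))
  have G1 : ∀ i, G (Sum.inl (i, false)) =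
      Sum.inl ((κ (i, false), κ (i, true)), (c (i, false), c (i, true))) := fun _ => rfl
  have G2 : ∀ i, G (Sum.inl (i, true)) =
      if κ (i, false) = κ (i, true) ∧ c (i, false) = c (i, true) then
        Sum.inr (κ (i, false), c (i, false))
      else Sum.inl ((κ (i, true), κ (i, false)), (c (i, true), c (i, false))) := fun _ => rfl
  have G3 : ∀ x, G (Sum.inr x) = Sum.inl ((x.1, x.1), (x.2, x.2)) := fun _ => rfl
  have hcard := Finset.card_le_card_of_injOn (s := (Finset.univ : Finset (Fin n × Bool)).disjSum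
    (RR' d B s)) (t := (QQ d B).disjSum (RR' d B fun x => ¬ s x)) G (by
      intro x hx
      rw [Finset.mem_coe, Finset.mem_disjSum] at hx
      rw [Finset.mem_coe, Finset.mem_disjSum]
      rcases hx with ⟨⟨i, b⟩, _, rfl⟩ | ⟨x, hx, rfl⟩
      · cases b
        · left
          exact ⟨((κ (i, false), κ (i, true)), (c (i, false), c (i, true))),
            (mem_QQ d B).2 ⟨h1 i, hc _, hc _⟩, (G1 i).symm⟩
        · by_cases h : κ (i, false) = κ (i, true) ∧ c (i, false) = c (i, true)
          · right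
            refine ⟨(κ (i, false), c (i, false)),
              (mem_RR' d B _).2 ⟨⟨?_, h2 i h.1 h.2⟩, hc (i, false)⟩, ?_⟩
            · have := h1 i
              rwa [← h.1] at this
            · rw [G2, if_pos h]
          · left
            refine ⟨((κ (i, true), κ (i, false)), (c (i, true), c (i, false))),
              (mem_QQ d B).2 ⟨hB _ _ (h1 i), hc (i, true), hc (i, false)⟩, ?_⟩
            rw [G2, if_neg h]
      · left
        rw [mem_RR'] at hx
        exact ⟨((x.1, x.1), (x.2, x.2)), (mem_QQ d B).2 ⟨hx.1.1, hx.2, hx.2⟩, (G3 x).symm⟩) (by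
      intro x hx y hy hxy
      rw [Finset.mem_coe, Finset.mem_disjSum] at hx hy
      rcases hx with ⟨⟨i, b⟩, _, rfl⟩ | ⟨x, hx, rfl⟩ <;>
        rcases hy with ⟨⟨j, b'⟩, _, rfl⟩ | ⟨y, hy, rfl⟩
      · cases b <;> cases b'
        · rw [G1, G1] at hxy
          simp only [Sum.inl.injEq, Prod.mk.injEq] at hxy
          rw [h3 i j hxy.1.1 hxy.2.1 hxy.1.2 hxy.2.2]
        · rw [G1, G2] at hxy
          split_ifs at hxy with h
          simp only [Sum.inl.injEq, Prod.mk.injEq] at hxy
          have := h4 i j hxy.1.1 hxy.2.1 hxy.1.2 hxy.2.2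
          subst this
          exact absurd ⟨hxy.1.1, hxy.2.1⟩ h
        · rw [G1, G2] at hxy
          split_ifs at hxy with h
          simp only [Sum.inl.injEq, Prod.mk.injEq] at hxy
          have := h4 i j hxy.1.2 hxy.2.2 hxy.1.1 hxy.2.1
          subst this
          exact absurd ⟨hxy.1.2, hxy.2.2⟩ h
        · rw [G2, G2] at hxy
          split_ifs at hxy with h h' h'
          · simp only [Sum.inr.injEq, Prod.mk.injEq] at hxy
            rw [h3 i j hxy.1 hxy.2 (h.1.symm.trans (hxy.1.trans h'.1))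
              (h.2.symm.trans (hxy.2.trans h'.2))]
          · simp only [Sum.inl.injEq, Prod.mk.injEq] at hxy
            rw [h3 i j hxy.1.2 hxy.2.2 hxy.1.1 hxy.2.1]
      · rw [mem_RR'] at hy
        cases b
        · rw [G1, G3] at hxy
          simp only [Sum.inl.injEq, Prod.mk.injEq] at hxy
          exact absurd (hxy.1.1 ▸ hy.1.2) (h2 i (hxy.1.1.trans hxy.1.2.symm)
            (hxy.2.1.trans hxy.2.2.symm))
        · rw [G2, G3] at hxy
          split_ifs at hxy with h
          simp only [Sum.inl.injEq, Prod.mk.injEq] at hxy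
          exact absurd ⟨hxy.1.2.trans hxy.1.1.symm, hxy.2.2.trans hxy.2.1.symm⟩ h
      · rw [mem_RR'] at hx
        cases b'
        · rw [G1, G3] at hxy
          simp only [Sum.inl.injEq, Prod.mk.injEq] at hxy
          exact absurd (hxy.1.1.symm ▸ hx.1.2) (h2 j (hxy.1.1.symm.trans hxy.1.2)
            (hxy.2.1.symm.trans hxy.2.2))
        · rw [G2, G3] at hxy
          split_ifs at hxy with h
          simp only [Sum.inl.injEq, Prod.mk.injEq] at hxy
          exact absurd ⟨hxy.1.2.symm.trans hxy.1.1, hxy.2.2.symm.trans hxy.2.1⟩ h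
      · rw [G3, G3] at hxy
        simp only [Sum.inl.injEq, Prod.mk.injEq] at hxy
        have : x = y := Prod.ext hxy.1.1 hxy.2.1
        rw [this])
  rw [Finset.card_disjSum, Finset.card_disjSum, Finset.card_univ, Fintype.card_prod,
    Fintype.card_fin, Fintype.card_bool] at hcard
  omega

end count

section perm

variable {n : ℕ}

theorem prm_swap {i j : Fin n} (h : i ≠ j) :
    prm (swap i j) = swap (i, true) (j, true) * swap (i, false) (j, false) := by
  have h' : j ≠ i := h.symm
  ext1 ⟨m, e⟩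
  rw [Perm.mul_apply, prm_apply]
  by_cases h1 : m = i
  · subst h1
    cases e <;> simp [swap_apply_def, h, h']
  · by_cases h2 : m = j
    · subst h2
      cases e <;> simp [swap_apply_def, h, h']
    · cases e <;> simp [swap_apply_def, h1, h2]

theorem sign_flip (i : Fin n) : Perm.sign (ZC.flip i) = -1 := by
  unfold ZC.flip
  exact Perm.sign_swap (by simp)

theorem sign_prm_swap {i j : Fin n} (h : i ≠ j) : Perm.sign (prm (swap i j)) = 1 := by
  rw [prm_swap h, Perm.sign_mul, Perm.sign_swap (by simp [h]), Perm.sign_swap (by simp [h])]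
  rfl

end perm

end Pool.Agent.J4.H70.ZV
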