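import Pool.Agent.J4.H70.ZV.D

/-!
# Vanishing of the alternating sums on a quotient of the square of a curve
-/

set_option autoImplicit false

open FF Equiv Pool.Agent.J4.H17 Pool.Agent.J4.H17.ZC Pool.Agent.J4.H82.PV

namespace Pool.Agent.J4.H70.ZV

section zero

variable {k : Type} [Field k] [CharZero k] {K : Type} [Field K] [Algebra k K]
  {A : Type} [Group A] [Fintype A] (α : A →* (K ≃ₐ[k] K)) (o : Place k K)
  {Y : Type} (q : Place k K × Place k K → Y) {n : ℕ} (l : ((Fin n → Y) →₀ ℤ) →+ ℚ)
  (lab : Fin n × Bool → (A →* ℤˣ)) (w : Fin n × Bool → Place k K)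

theorem As_kil {d : (A →* ℤˣ) → ℕ} (hv : ∀ χ, Van k (op α o χ) (d χ))
    (hl : ∀ r ∈ RatEq (((curve k K).prod (curve k K)).pow (Fin n)),
      l (Finsupp.mapDomain (fun x i => q (x i)) r) = 0) : As α o q l lab w ∈ kil lab d := by
  intro θ T hT hTc u
  unfold As
  rw [Finset.sum_comm]
  refine Finset.sum_eq_zero fun π _ => ?_
  rw [← Finset.mul_sum]
  have h1 : ∑ τ ∈ PT T, Ps α o q l lab w (τ * (u * prm π)) = 0 := by
    have h2 := Phi_kil hv lab w ((l.comp (Finsupp.mapDomain.addMonoidHom
      fun (x : Fin n → Place k K × Place k K) i => q (x i))).comp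
        (Finsupp.mapDomain.addMonoidHom FF2)) (by
      intro r hr
      refine hl _ (Reg.push (X := (curve k K).pow (Fin n × Bool))
        (Y := ((curve k K).prod (curve k K)).pow (Fin n)) (F := FF2) ?_ hr)
      intro L _ _ x hx i
      exact ⟨hx (i, false), hx (i, true)⟩) θ T hT hTc (u * prm π)
    rw [← h2]
    refine Finset.sum_congr rfl fun τ _ => ?_
    rw [Ps_eq]
  have h3 : ∑ τ ∈ PT T, Ps α o q l lab w (τ * u * prm π) = 0 := by
    rw [← h1]
    refine Finset.sum_congr rfl fun τ _ => ?_
    rw [mul_assoc]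
  rw [h3, mul_zero]

/-- The alternating sum is zero. -/
theorem As_zero {d : (A →* ℤˣ) → ℕ} (hv : ∀ χ, Van k (op α o χ) (d χ))
    (hl : ∀ r ∈ RatEq (((curve k K).prod (curve k K)).pow (Fin n)),
      l (Finsupp.mapDomain (fun x i => q (x i)) r) = 0)
    (D : Subgroup (A × A)) (e0 : A) (hD : ∀ x ∈ D, (x.2, x.1) ∈ D) (he : (e0, e0) ∈ D)
    (hqD : ∀ z ∈ D, ∀ x : Place k K × Place k K, q (act (α z.1) x.1, act (α z.2) x.2) = q x)
    (hqS : ∀ x : Place k K × Place k K, q (x.2, act (α e0) x.1) = q x)
    [Fintype (A →* ℤˣ)] [DecidableRel fun χ ψ : A →* ℤˣ => ∀ z ∈ D, χ z.1 * ψ z.2 = 1]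
    [DecidablePred fun χ : A →* ℤˣ => χ e0 = 1]
    (hn : (QQ d fun χ ψ : A →* ℤˣ => ∀ z ∈ D, χ z.1 * ψ z.2 = 1).card +
      (RR' d (fun χ ψ : A →* ℤˣ => ∀ z ∈ D, χ z.1 * ψ z.2 = 1) fun χ => ¬ χ e0 = 1).card < 2 * n +
      (RR' d (fun χ ψ : A →* ℤˣ => ∀ z ∈ D, χ z.1 * ψ z.2 = 1) fun χ => χ e0 = 1).card) :
    As α o q l lab w 1 = 0 := by
  classical
  have key : As α o q l lab w = 0 := by
    refine lemA lab d _ (As_kil α o q l lab w hv hl) ?_
    intro κ c hc
    by_contra hcon
    push Not at hcon
    have hunit : ∀ x : ℤˣ, (((x : ℤˣ) : ℤ) : ℚ) = 1 → x = 1 := by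
      intro x hx
      have h1 : ((x : ℤˣ) : ℤ) = 1 := by exact_mod_cast hx
      exact Units.ext h1
    have h1 : ∀ i, ∀ z ∈ D, κ (i, false) z.1 * κ (i, true) z.2 = 1 := by
      intro i z hz
      have h2 := hcon 1 (fun κ => ((κ (i, false) z.1 : ℤˣ) : ℤ) * ((κ (i, true) z.2 : ℤˣ) : ℤ))
        (fun u => by rw [mul_one]; exact As_D α o q l lab w (hqD z hz) u i)
        (fun _ => rfl) (fun _ => rfl)
      rw [Perm.sign_one] at h2
      refine hunit _ ?_
      rw [Units.val_mul]
      push_cast at h2 ⊢
      exact h2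
    have hflip : ∀ (i : Fin n) (x : Fin n × Bool), ZC.flip i x = x ∨ (x = (i, false) ∧
        ZC.flip i x = (i, true)) ∨ (x = (i, true) ∧ ZC.flip i x = (i, false)) := by
      intro i x
      unfold ZC.flip
      rcases eq_or_ne x (i, false) with rfl | h2
      · right; left; exact ⟨rfl, swap_apply_left _ _⟩
      · rcases eq_or_ne x (i, true) with rfl | h3
        · right; right; exact ⟨rfl, swap_apply_right _ _⟩
        · left; exact swap_apply_of_ne_of_ne h2 h3
    have h2 : ∀ i, κ (i, false) = κ (i, true) → c (i, false) = c (i, true) →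
        ¬ κ (i, false) e0 = 1 := by
      intro i h3 h4 h5
      have h6 := hcon (ZC.flip i) (fun κ => ((κ (i, false) e0 : ℤˣ) : ℤ))
        (fun u => As_S α o q l lab w hqS u i)
        (fun x => by
          rcases hflip i x with h | ⟨rfl, h⟩ | ⟨rfl, h⟩ <;> rw [h]
          · exact h3.symm
          · exact h3)
        (fun x => by
          rcases hflip i x with h | ⟨rfl, h⟩ | ⟨rfl, h⟩ <;> rw [h]
          · exact h4.symm
          · exact h4)
      rw [sign_flip, h5] at h6
      norm_num at h6
    have h3 : ∀ i j, κ (i, false) = κ (j, false) → c (i, false) = c (j, false) →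
        κ (i, true) = κ (j, true) → c (i, true) = c (j, true) → i = j := by
      intro i j e1 e2 e3 e4
      by_contra hij
      have hsw : ∀ x : Fin n × Bool, prm (swap i j) x = x ∨
          (x.1 = i ∧ prm (swap i j) x = (j, x.2)) ∨ (x.1 = j ∧ prm (swap i j) x = (i, x.2)) := by
        rintro ⟨m, b⟩
        rw [prm_apply]
        rcases eq_or_ne m i with rfl | h2
        · right; left; exact ⟨rfl, by rw [swap_apply_left]⟩
        · rcases eq_or_ne m j with rfl | h3
          · right; right; exact ⟨rfl, by rw [swap_apply_right]⟩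
          · left; rw [swap_apply_of_ne_of_ne h2 h3]
      have h6 := hcon (prm (swap i j)) (fun _ => ((Perm.sign (swap i j) : ℤ) : ℚ))
        (fun u => As_P α o q l lab w u (swap i j))
        (fun x => by
          obtain ⟨m, b⟩ := x
          rcases hsw (m, b) with h | ⟨h', h⟩ | ⟨h', h⟩ <;> rw [h]
          · simp only at h'; subst h'
            cases b
            · exact e1.symm
            · exact e3.symm
          · simp only at h'; subst h'
            cases b
            · exact e1
            · exact e3)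
        (fun x => by
          obtain ⟨m, b⟩ := x
          rcases hsw (m, b) with h | ⟨h', h⟩ | ⟨h', h⟩ <;> rw [h]
          · simp only at h'; subst h'
            cases b
            · exact e2.symm
            · exact e4.symm
          · simp only at h'; subst h'
            cases b
            · exact e2
            · exact e4)
      rw [sign_prm_swap hij, Perm.sign_swap hij] at h6
      norm_num at h6
    have h4 : ∀ i j, κ (i, false) = κ (j, true) → c (i, false) = c (j, true) →
        κ (i, true) = κ (j, false) → c (i, true) = c (j, false) → i = j := by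
      intro i j e1 e2 e3 e4
      by_contra hij
      have hij' : j ≠ i := Ne.symm hij
      have hσ := cross_eq hij
      have hsw : ∀ x : Fin n × Bool,
          (swap (i, true) (j, false) * swap (i, false) (j, true) : Perm (Fin n × Bool)) x = x ∨
          (x = (i, true) ∧ (swap (i, true) (j, false) * swap (i, false) (j, true) :
            Perm (Fin n × Bool)) x = (j, false)) ∨
          (x = (j, false) ∧ (swap (i, true) (j, false) * swap (i, false) (j, true) :
            Perm (Fin n × Bool)) x = (i, true)) ∨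
          (x = (i, false) ∧ (swap (i, true) (j, false) * swap (i, false) (j, true) :
            Perm (Fin n × Bool)) x = (j, true)) ∨
          (x = (j, true) ∧ (swap (i, true) (j, false) * swap (i, false) (j, true) :
            Perm (Fin n × Bool)) x = (i, false)) := by
        rintro ⟨m, b⟩
        rw [Perm.mul_apply]
        rcases eq_or_ne m i with rfl | h2
        · cases b <;> simp [swap_apply_def, hij, hij']
        · rcases eq_or_ne m j with rfl | h3
          · cases b <;> simp [swap_apply_def, hij, hij']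
          · cases b <;> simp [swap_apply_def, h2, h3]
      have h6 := hcon (swap (i, true) (j, false) * swap (i, false) (j, true))
        (fun κ => -(((κ (i, false) e0 : ℤˣ) : ℤ) * ((κ (j, false) e0 : ℤˣ) : ℤ)))
        (fun u => by
          rw [hσ, ← mul_assoc, ← mul_assoc, As_P, As_S α o q l lab w hqS,
            As_S α o q l lab w hqS, Perm.sign_swap hij]
          have e5 : (u * ZC.flip i) (j, false) = u (j, false) := by
            rw [Perm.mul_apply]
            unfold ZC.flip
            rw [swap_apply_of_ne_of_ne (by simp [hij']) (by simp)]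
          rw [e5]
          push_cast
          ring)
        (fun x => by
          rcases hsw x with h | ⟨rfl, h⟩ | ⟨rfl, h⟩ | ⟨rfl, h⟩ | ⟨rfl, h⟩ <;> rw [h]
          · exact e3.symm
          · exact e3
          · exact e1.symm
          · exact e1)
        (fun x => by
          rcases hsw x with h | ⟨rfl, h⟩ | ⟨rfl, h⟩ | ⟨rfl, h⟩ | ⟨rfl, h⟩ <;> rw [h]
          · exact e4.symm
          · exact e4
          · exact e2.symm
          · exact e2)
      have e5 : κ (i, false) e0 * κ (j, false) e0 = 1 := by
        rw [← e3]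
        exact h1 i _ he
      have e6 : ((κ (i, false) e0 : ℤˣ) : ℤ) * ((κ (j, false) e0 : ℤˣ) : ℤ) = 1 := by
        rw [← Units.val_mul, e5]; rfl
      have e7 : (((κ (i, false) e0 : ℤˣ) : ℤ) : ℚ) * (((κ (j, false) e0 : ℤˣ) : ℤ) : ℚ) = 1 := by
        exact_mod_cast e6
      rw [e7, Perm.sign_mul, Perm.sign_swap (by simp [hij]), Perm.sign_swap (by simp [hij])] at h6
      norm_num at h6
    have h5 := pigeon d (fun χ ψ : A →* ℤˣ => ∀ z ∈ D, χ z.1 * ψ z.2 = 1) (fun χ => χ e0 = 1)
      (fun χ ψ h z hz => by
        have := h (z.2, z.1) (hD z hz)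
        rw [mul_comm]
        exact this) κ c hc h1 h2 h3 h4
    omega
  rw [key]
  rfl

end zero

end Pool.Agent.J4.H70.ZV
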