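import Pool.Agent.J4.H70.ZV.E

/-!
# Reduction of zero-cycles on a quotient of the square of a curve to isotypic parts
-/

set_option autoImplicit false

open FF Equiv Pool.Agent.J4.H17 Pool.Agent.J4.H17.ZC Pool.Agent.J4.H82.PV

namespace Pool.Agent.J4.H70.ZV

section red

variable {k : Type} [Field k] {K : Type} [Field K] [Algebra k K]
  {A : Type} [Group A] [Fintype A] (α : A →* (K ≃ₐ[k] K)) (o : Place k K)
  {Y : Type} (q : Place k K × Place k K → Y) {n : ℕ}

/-- the operator with values in the isotypic part -/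
noncomputable def Rop (x : (A →* ℤˣ) × (A →* ℤˣ)) (y : Place k K × Place k K) :
    (Place k K × Place k K) →₀ ℤ := px (op α o x.1 y.1) (op α o x.2 y.2)

/-- the operator with values in the isotypic part, without modification -/
noncomputable def Eop (x : (A →* ℤˣ) × (A →* ℤˣ)) (y : Place k K × Place k K) :
    (Place k K × Place k K) →₀ ℤ := px (ex α x.1 y.1) (ex α x.2 y.2)

theorem sum_ex [Fintype (A →* ℤˣ)] (hA : ∀ x : A, x * x = 1) (P : Place k K) :
    ∑ χ : A →* ℤˣ, ex α χ P = (Fintype.card (A →* ℤˣ) : ℤ) • Finsupp.single P 1 := by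
  classical
  unfold ex
  rw [Finset.sum_comm]
  have h1 : ∀ a : A, ∑ χ : A →* ℤˣ, ((χ a : ℤˣ) : ℤ) • Finsupp.single (act (α a) P) (1 : ℤ) =
      (∑ χ : A →* ℤˣ, ((χ a : ℤˣ) : ℤ)) • Finsupp.single (act (α a) P) (1 : ℤ) := fun a => by
    rw [Finset.sum_smul]
  rw [Finset.sum_congr rfl fun a _ => h1 a, Finset.sum_eq_single (1 : A)]
  · have h2 : ∑ χ : A →* ℤˣ, ((χ 1 : ℤˣ) : ℤ) = Fintype.card (A →* ℤˣ) := by
      simp only [map_one, Units.val_one, Finset.sum_const, Finset.card_univ, nsmul_eq_mul, mul_one]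
    rw [h2, map_one, act_one]
  · intro a _ ha
    rw [char_sum hA ha, zero_smul]
  · intro h
    exact absurd (Finset.mem_univ _) h

theorem sum_Eop [Fintype (A →* ℤˣ)] (hA : ∀ x : A, x * x = 1) (y : Place k K × Place k K) :
    ∑ x : (A →* ℤˣ) × (A →* ℤˣ), Eop α x y =
      ((Fintype.card (A →* ℤˣ) : ℤ) ^ 2) • Finsupp.single y 1 := by
  unfold Eop
  rw [Fintype.sum_prod_type]
  have h1 : ∀ χ : A →* ℤˣ, ∑ ψ : A →* ℤˣ, px (ex α (χ, ψ).1 y.1) (ex α (χ, ψ).2 y.2) =
      px (ex α χ y.1) (∑ ψ : A →* ℤˣ, ex α ψ y.2) := fun χ => by rw [px_sum_right]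
  rw [Finset.sum_congr rfl fun χ _ => h1 χ, ← px_sum_left, sum_ex α hA, sum_ex α hA, px_smul_left,
    px_smul_right, px_single_single, smul_smul, mul_one, sq]

omit [Fintype A] in
/-- the product of two cycles which are equivariant with different characters -/
theorem q_zero {a b : A} (hq : ∀ x : Place k K × Place k K, q (act (α a) x.1, act (α b) x.2) = q x)
    {Z W : Place k K →₀ ℤ} (hZ : ∃ u v : ℤ, Finsupp.mapDomain (act (α a)) Z = u • Z ∧
      Finsupp.mapDomain (act (α b)) W = v • W ∧ u * v = -1) :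
    Finsupp.mapDomain q (px Z W) = 0 := by
  obtain ⟨u, v, hu, hv, huv⟩ := hZ
  have h1 : Finsupp.mapDomain q (px Z W) = Finsupp.mapDomain q (Finsupp.mapDomain
      (fun x : Place k K × Place k K => (act (α a) x.1, act (α b) x.2)) (px Z W)) := by
    rw [← Finsupp.mapDomain_comp]
    congr 1
    funext x
    exact (hq x).symm
  rw [map_px, hu, hv, px_smul_left, px_smul_right, smul_smul, huv, neg_smul, one_smul] at h1
  have h2 : Finsupp.mapDomain q (-px Z W) = -Finsupp.mapDomain q (px Z W) :=
    map_neg (Finsupp.mapDomain.addMonoidHom (M := ℤ) q) (px Z W)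
  rw [h2] at h1
  exact self_eq_neg.1 h1

omit [Fintype A] in
theorem map_q_zero {Z W : Place k K →₀ ℤ} (D : Subgroup (A × A))
    (hqD : ∀ z ∈ D, ∀ x : Place k K × Place k K, q (act (α z.1) x.1, act (α z.2) x.2) = q x)
    {χ ψ : A →* ℤˣ} (hχψ : ¬ ∀ z ∈ D, χ z.1 * ψ z.2 = 1)
    (hZ : ∀ a, Finsupp.mapDomain (act (α a)) Z = ((χ a : ℤˣ) : ℤ) • Z)
    (hW : ∀ a, Finsupp.mapDomain (act (α a)) W = ((ψ a : ℤˣ) : ℤ) • W) :
    Finsupp.mapDomain q (px Z W) = 0 := by
  push Not at hχψ
  obtain ⟨z, hz, hz1⟩ := hχψ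
  refine q_zero α q (hqD z hz) ⟨_, _, hZ z.1, hW z.2, ?_⟩
  rw [← Units.val_mul, (Int.units_eq_one_or _).resolve_left hz1]
  rfl

theorem lc_eq_zero {X M : Type} [AddCommGroup M] (f : X → M) (z : X →₀ ℤ) (h : ∀ x, f x = 0) :
    Finsupp.linearCombination ℤ f z = 0 := by
  rw [Finsupp.linearCombination_apply]
  refine Finset.sum_eq_zero fun x _ => ?_
  simp only [h, smul_zero]

theorem map_lc {X M N : Type} [AddCommGroup M] [AddCommGroup N] (g : M →+ N) (f : X → M)
    (z : X →₀ ℤ) : g (Finsupp.linearCombination ℤ f z) =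
      Finsupp.linearCombination ℤ (fun x => g (f x)) z := by
  rw [Finsupp.linearCombination_apply, Finsupp.linearCombination_apply, Finsupp.sum, map_sum]
  refine Finset.sum_congr rfl fun x _ => ?_
  rw [map_zsmul]

theorem lc_sub {X M : Type} [AddCommGroup M] (f g : X → M) (z : X →₀ ℤ) :
    Finsupp.linearCombination ℤ f z - Finsupp.linearCombination ℤ g z =
      Finsupp.linearCombination ℤ (fun x => f x - g x) z := by
  simp only [Finsupp.linearCombination_apply, Finsupp.sum, smul_sub, Finset.sum_sub_distrib]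

theorem lc_add {X M : Type} [AddCommGroup M] (f g : X → M) (z : X →₀ ℤ) :
    Finsupp.linearCombination ℤ f z + Finsupp.linearCombination ℤ g z =
      Finsupp.linearCombination ℤ (fun x => f x + g x) z := by
  simp only [Finsupp.linearCombination_apply, Finsupp.sum, smul_add, Finset.sum_add_distrib]

theorem lc_const {X M : Type} [AddCommGroup M] (m : M) (z : X →₀ ℤ) :
    Finsupp.linearCombination ℤ (fun _ : X => m) z = dg z • m := by
  induction z using Finsupp.induction_linear with
  | zero => simp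
  | add u v hu hv => rw [map_add, map_add, hu, hv, add_smul]
  | single x c => rw [Finsupp.linearCombination_single, dg_single]

theorem om_one : om α o 1 = NN α o := by
  unfold om
  rw [if_pos rfl, ex_one]

theorem om_ne {χ : A →* ℤˣ} (h : χ ≠ 1) : om α o χ = 0 := by
  unfold om
  rw [if_neg h]

theorem map_NN (a : A) (P : Place k K) : Finsupp.mapDomain (act (α a)) (NN α P) = NN α P := by
  have h := map_ex α a 1 P
  rw [ex_one, MonoidHom.one_apply, Units.val_one, one_smul] at h
  exact h

theorem q_swap {e0 : A} (hqS : ∀ x : Place k K × Place k K, q (x.2, act (α e0) x.1) = q x)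
    (s t : Place k K) : Finsupp.mapDomain q (px (NN α s) (NN α t)) =
      Finsupp.mapDomain q (px (NN α t) (NN α s)) := by
  have h1 : Finsupp.mapDomain q (px (NN α s) (NN α t)) = Finsupp.mapDomain q (Finsupp.mapDomain
      (fun x : Place k K × Place k K => (x.2, act (α e0) x.1)) (px (NN α s) (NN α t))) := by
    rw [← Finsupp.mapDomain_comp]
    congr 1
    funext x
    exact (hqS x).symm
  have h3 := map_px_swap (act (α e0)) (fun x : Place k K => x) (NN α s) (NN α t)
  rw [h1, h3, map_NN]
  congr 2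
  exact Finsupp.mapDomain_id

variable [CharZero k] (l : ((Fin n → Y) →₀ ℤ) →+ ℚ)

/-- The modification of the operators does not matter. -/
theorem red_null (D : Subgroup (A × A)) (e0 : A) (hD : ∀ x ∈ D, (x.2, x.1) ∈ D)
    (hsurj : ∀ a, ∃ b, (a, b) ∈ D)
    (hqD : ∀ z ∈ D, ∀ x : Place k K × Place k K, q (act (α z.1) x.1, act (α z.2) x.2) = q x)
    (hqS : ∀ x : Place k K × Place k K, q (x.2, act (α e0) x.1) = q x)
    (hl : ∀ r ∈ RatEq (((curve k K).prod (curve k K)).pow (Fin n)),
      l (Finsupp.mapDomain (fun x i => q (x i)) r) = 0)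
    (b : (Place k K × Place k K) →₀ ℤ) (hb : dg b = 0)
    (hb1 : ∃ N : ℕ, 0 < N ∧ N • Finsupp.linearCombination ℤ
      (fun x : Place k K × Place k K => NN α x.1 + NN α x.2) b ∈ RatEq (curve k K))
    (x : (A →* ℤˣ) × (A →* ℤˣ)) :
    Finsupp.linearCombination ℤ (Eop α x) b - Finsupp.linearCombination ℤ (Rop α o x) b ∈
      Null (l.comp (Finsupp.mapDomain.addMonoidHom fun x i => q (x i))) := by
  classical
  have hX := prod_const k K K
  obtain ⟨χ, ψ⟩ := x
  have hne : ∀ χ : A →* ℤˣ, χ ≠ 1 → ¬ ∀ a, χ a = 1 := fun χ h1 h2 => h1 (by ext a; rw [h2 a]; rfl)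
  rw [lc_sub]
  by_cases h1 : χ = 1
  · by_cases h2 : ψ = 1
    · subst h1; subst h2
      have h3 : Finsupp.linearCombination ℤ (fun x => Eop α (1, 1) x - Rop α o (1, 1) x) b =
          px (Finsupp.linearCombination ℤ
            (fun x : Place k K × Place k K => NN α x.1 + NN α x.2) b) (NN α o) +
          Finsupp.linearCombination ℤ (fun x : Place k K × Place k K =>
            px (NN α o) (NN α x.2) - px (NN α x.2) (NN α o)) b -
          Finsupp.linearCombination ℤ (fun _ : Place k K × Place k K =>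
            px (NN α o) (NN α o)) b := by
        have h4 := map_lc (pxHom.flip (NN α o))
          (fun x : Place k K × Place k K => NN α x.1 + NN α x.2) b
        change px _ _ = _ at h4
        rw [h4, lc_add, lc_sub]
        congr 1
        congr 1
        funext x
        unfold Eop Rop op
        simp only [om_one, ex_one, px_sub_left, px_sub_right]
        change _ = px (NN α x.1 + NN α x.2) (NN α o) + _ - _
        rw [px_add_left]
        abel
      rw [h3, lc_const, hb, zero_smul, sub_zero]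
      refine AddSubgroup.add_mem _ ?_ ?_
      · obtain ⟨N, hN, h⟩ := hb1
        refine Null_of_nsmul _ hN ?_
        rw [← natCast_zsmul, ← px_smul_left]
        refine Null_of_mem (X := (curve k K).prod (curve k K)) hX _ hl (px_mem_left ?_ _)
        rwa [natCast_zsmul]
      · refine Null_of_map q l ?_
        have h4 := map_lc (Finsupp.mapDomain.addMonoidHom (M := ℤ) q)
          (fun x : Place k K × Place k K => px (NN α o) (NN α x.2) - px (NN α x.2) (NN α o)) b
        refine h4.trans (lc_eq_zero _ _ fun x => ?_)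
        rw [map_sub, sub_eq_zero]
        exact q_swap α q hqS o x.2
    · subst h1
      refine Null_of_map q l ?_
      have h4 := map_lc (Finsupp.mapDomain.addMonoidHom (M := ℤ) q)
        (fun x => Eop α (1, ψ) x - Rop α o (1, ψ) x) b
      refine h4.trans (lc_eq_zero _ _ fun x => ?_)
      have h5 : Eop α (1, ψ) x - Rop α o (1, ψ) x = px (NN α o) (ex α ψ x.2) := by
        unfold Eop Rop op
        simp only [om_one, ex_one, om_ne α o h2, px_sub_left, sub_zero]
        abel
      rw [h5]
      refine map_q_zero α q D hqD (χ := 1) (ψ := ψ) ?_ ?_ ?_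
      · intro h6
        refine hne ψ h2 fun a => ?_
        obtain ⟨b, hb⟩ := hsurj a
        have := h6 _ (hD _ hb)
        rwa [MonoidHom.one_apply, one_mul] at this
      · intro a
        rw [map_NN, MonoidHom.one_apply, Units.val_one, one_smul]
      · intro a
        exact map_ex α a ψ x.2
  · by_cases h2 : ψ = 1
    · subst h2
      refine Null_of_map q l ?_
      have h4 := map_lc (Finsupp.mapDomain.addMonoidHom (M := ℤ) q)
        (fun x => Eop α (χ, 1) x - Rop α o (χ, 1) x) b
      refine h4.trans (lc_eq_zero _ _ fun x => ?_)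
      have h5 : Eop α (χ, 1) x - Rop α o (χ, 1) x = px (ex α χ x.1) (NN α o) := by
        unfold Eop Rop op
        simp only [om_one, ex_one, om_ne α o h1, px_sub_right, sub_zero]
        abel
      rw [h5]
      refine map_q_zero α q D hqD (χ := χ) (ψ := 1) ?_ ?_ ?_
      · intro h6
        refine hne χ h1 fun a => ?_
        obtain ⟨b, hb⟩ := hsurj a
        have := h6 _ hb
        rwa [MonoidHom.one_apply, mul_one] at this
      · intro a
        exact map_ex α a χ x.1
      · intro a
        rw [map_NN, MonoidHom.one_apply, Units.val_one, one_smul]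
    · have h5 : Finsupp.linearCombination ℤ (fun x => Eop α (χ, ψ) x - Rop α o (χ, ψ) x) b = 0 := by
        refine lc_eq_zero _ _ fun x => ?_
        unfold Eop Rop op
        simp only [om_ne α o h1, om_ne α o h2, sub_zero, sub_self]
      rw [h5]
      exact AddSubgroup.zero_mem _

/-- The vanishing of the alternating sums. -/
theorem alt_zero [Fintype (A →* ℤˣ)] (hA : ∀ x : A, x * x = 1)
    (D : Subgroup (A × A)) (e0 : A) (hD : ∀ x ∈ D, (x.2, x.1) ∈ D) (he : (e0, e0) ∈ D)
    (hsurj : ∀ a, ∃ b, (a, b) ∈ D)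
    (hqD : ∀ z ∈ D, ∀ x : Place k K × Place k K, q (act (α z.1) x.1, act (α z.2) x.2) = q x)
    (hqS : ∀ x : Place k K × Place k K, q (x.2, act (α e0) x.1) = q x)
    (hl : ∀ r ∈ RatEq (((curve k K).prod (curve k K)).pow (Fin n)),
      l (Finsupp.mapDomain (fun x i => q (x i)) r) = 0)
    {d : (A →* ℤˣ) → ℕ} (hv : ∀ χ, Van k (op α o χ) (d χ))
    [DecidableRel fun χ ψ : A →* ℤˣ => ∀ z ∈ D, χ z.1 * ψ z.2 = 1]
    [DecidablePred fun χ : A →* ℤˣ => χ e0 = 1]
    (hn : (QQ d fun χ ψ : A →* ℤˣ => ∀ z ∈ D, χ z.1 * ψ z.2 = 1).card +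
      (RR' d (fun χ ψ : A →* ℤˣ => ∀ z ∈ D, χ z.1 * ψ z.2 = 1) fun χ => ¬ χ e0 = 1).card < 2 * n +
      (RR' d (fun χ ψ : A →* ℤˣ => ∀ z ∈ D, χ z.1 * ψ z.2 = 1) fun χ => χ e0 = 1).card)
    (b : Fin n → (Place k K × Place k K) →₀ ℤ) (hb : ∀ i, dg (b i) = 0)
    (hb1 : ∀ i, ∃ N : ℕ, 0 < N ∧ N • Finsupp.linearCombination ℤ
      (fun x : Place k K × Place k K => NN α x.1 + NN α x.2) (b i) ∈ RatEq (curve k K)) :
    l (altSum fun i => Finsupp.mapDomain q (b i)) = 0 := by
  classical
  let l' : ((Fin n → Place k K × Place k K) →₀ ℤ) →+ ℚ :=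
    l.comp (Finsupp.mapDomain.addMonoidHom fun x i => q (x i))
  have h0 : l (altSum fun i => Finsupp.mapDomain q (b i)) = l' (altSum b) := by
    rw [← map_altSum q b]; rfl
  rw [h0]
  set C : ℤ := (Fintype.card (A →* ℤˣ) : ℤ) ^ 2 with hC
  have hC0 : C ≠ 0 := by
    have h1 : 0 < Fintype.card (A →* ℤˣ) := Fintype.card_pos
    rw [hC]
    exact pow_ne_zero 2 (by exact_mod_cast h1.ne')
  -- expansion
  have h1 : ∀ a : Fin n → (Place k K × Place k K) →₀ ℤ, l' (altSum a) =
      ∑ σ : Perm (Fin n), ((Perm.sign σ : ℤ) : ℚ) * l' (extG fun i => a (σ i)) := by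
    intro a
    unfold altSum
    rw [map_sum]
    refine Finset.sum_congr rfl fun σ _ => ?_
    rw [map_zsmul, zsmul_eq_mul, ext_eq_extG]
  have h2 : l' (altSum fun i => C • b i) = l' (altSum fun i =>
      ∑ x : (A →* ℤˣ) × (A →* ℤˣ), Finsupp.linearCombination ℤ (Rop α o x) (b i)) := by
    rw [h1, h1]
    refine Finset.sum_congr rfl fun σ _ => ?_
    congr 1
    refine tele l' _ _ fun i => ?_
    have h3 : C • b (σ i) = ∑ x : (A →* ℤˣ) × (A →* ℤˣ),
        Finsupp.linearCombination ℤ (Eop α x) (b (σ i)) := by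
      generalize b (σ i) = z
      induction z using Finsupp.induction_linear with
      | zero => simp
      | add u v hu hv =>
        rw [smul_add, hu, hv, ← Finset.sum_add_distrib]
        refine Finset.sum_congr rfl fun x _ => ?_
        rw [map_add]
      | single y c =>
        have h4 : Finsupp.single y c = c • Finsupp.single y (1 : ℤ) := by
          rw [Finsupp.smul_single, smul_eq_mul, mul_one]
        have h5 : ∀ x : (A →* ℤˣ) × (A →* ℤˣ), Finsupp.linearCombination ℤ (Eop α x)
            (Finsupp.single y c) = c • Eop α x y := fun x =>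
          Finsupp.linearCombination_single ℤ c y
        rw [Finset.sum_congr rfl fun x _ => h5 x, ← Finset.smul_sum, sum_Eop α hA, h4, smul_comm]
    rw [h3, ← Finset.sum_sub_distrib]
    exact AddSubgroup.sum_mem _ fun x _ =>
      red_null α o q l D e0 hD hsurj hqD hqS hl (b (σ i)) (hb _) (hb1 _) x
  have h3 : l' (altSum fun i => ∑ x : (A →* ℤˣ) × (A →* ℤˣ),
      Finsupp.linearCombination ℤ (Rop α o x) (b i)) = 0 := by
    rw [altSum_eq, ← extM_apply, MultilinearMap.map_sum, map_sum, map_sum]
    refine Finset.sum_eq_zero fun κ _ => ?_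
    rw [extM_apply, ext_eq_extG, ← mx_extG]
    generalize extG b = z
    induction z using Finsupp.induction_linear with
    | zero => rw [map_zero, map_zero, map_zero]
    | add u v hu hv => rw [map_add, map_add, map_add, hu, hv, add_zero]
    | single x c =>
      have h4 : Finsupp.single x c = c • Finsupp.single x (1 : ℤ) := by
        rw [Finsupp.smul_single, smul_eq_mul, mul_one]
      rw [h4, map_zsmul, map_zsmul, map_zsmul, mx_single, one_smul, ← ext_eq_extG, ← altSum_eq, h1]
      have h5 := As_zero α o q l (fun y => if y.2 then (κ y.1).2 else (κ y.1).1)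
        (fun y => if y.2 then (x y.1).2 else (x y.1).1) hv hl D e0 hD he hqD hqS hn
      have h6 : ∑ σ : Perm (Fin n), ((Perm.sign σ : ℤ) : ℚ) *
          l' (extG fun i => Rop α o (κ (σ i)) (x (σ i))) = 0 := by
        rw [← h5]
        unfold As
        refine Finset.sum_congr rfl fun σ _ => ?_
        rfl
      rw [h6, smul_zero]
  rw [← h2, altSum_smul, map_zsmul, zsmul_eq_mul] at h3
  rcases mul_eq_zero.1 h3 with h4 | h4
  · exact absurd h4 (by exact_mod_cast pow_ne_zero n hC0)
  · exact h4

end red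

end Pool.Agent.J4.H70.ZV
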