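import Pool.Agent.J4.H70.ZV.F

/-!
# The vanishing theorem for a quotient of the square of a curve
-/

set_option autoImplicit false

open FF Equiv Pool.Agent.J4.H17 Pool.Agent.J4.H17.ZC Pool.Agent.J4.H82.PV

namespace Pool.Agent.J4.H70.ZV

variable {k : Type} [Field k] [CharZero k] {K : Type} [Field K] [Algebra k K] [IsFF k K]
  {A : Type} [Group A] [Fintype A] (α : A →* (K ≃ₐ[k] K)) (o : Place k K)

theorem div_mem {f : K} (hf : f ≠ 0) : divisor k f ∈ RatEq (curve k K) := by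
  have hid : (curve k K).IsMor K (fun P => P) :=
    Or.inr ⟨AlgHom.id k K, fun P => ⟨1, one_pos, fun g => by simp⟩⟩
  have h5 := mem_ratEq (X := curve k K) (L := K) hid hf
  have h6 : Finsupp.mapDomain (fun P : Place k K => P) (divisor k f) = divisor k f :=
    Finsupp.mapDomain_id
  rwa [h6] at h5

theorem main_gen {Y : Type} (q : Place k K × Place k K → Y) (hqs : ∀ y, ∃ x, q x = y)
    (pd : Y → (Place k K →₀ ℤ)) (hpd : ∀ x, pd (q x) = NN α x.1 + NN α x.2) {n : ℕ}
    [Fintype (A →* ℤˣ)] (hA : ∀ x : A, x * x = 1)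
    (D : Subgroup (A × A)) (e0 : A) (hD : ∀ x ∈ D, (x.2, x.1) ∈ D) (he : (e0, e0) ∈ D)
    (hsurj : ∀ a, ∃ b, (a, b) ∈ D)
    (hqD : ∀ z ∈ D, ∀ x : Place k K × Place k K, q (act (α z.1) x.1, act (α z.2) x.2) = q x)
    (hqS : ∀ x : Place k K × Place k K, q (x.2, act (α e0) x.1) = q x)
    {d : (A →* ℤˣ) → ℕ} (hv : ∀ χ, Van k (op α o χ) (d χ))
    [DecidableRel fun χ ψ : A →* ℤˣ => ∀ z ∈ D, χ z.1 * ψ z.2 = 1]
    [DecidablePred fun χ : A →* ℤˣ => χ e0 = 1]
    (hn : (QQ d fun χ ψ : A →* ℤˣ => ∀ z ∈ D, χ z.1 * ψ z.2 = 1).card +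
      (RR' d (fun χ ψ : A →* ℤˣ => ∀ z ∈ D, χ z.1 * ψ z.2 = 1) fun χ => ¬ χ e0 = 1).card < 2 * n +
      (RR' d (fun χ ψ : A →* ℤˣ => ∀ z ∈ D, χ z.1 * ψ z.2 = 1) fun χ => χ e0 = 1).card)
    (a : Fin n → (Y →₀ ℤ)) (ha : ∀ i, ((a i).sum fun _ m => m) = 0)
    (ha1 : ∀ i, ∃ N : ℕ, 0 < N ∧ Principal k K (N • (a i).sum fun y m => m • pd y)) :
    ∃ N : ℕ, 0 < N ∧ N • altSum a ∈ RatEq ((((curve k K).prod (curve k K)).quot q).pow
      (Fin n)) := by
  classical
  choose r hr using hqs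
  have hmap : (fun i => Finsupp.mapDomain q (Finsupp.mapDomain r (a i))) = a := by
    funext i
    rw [← Finsupp.mapDomain_comp]
    have : q ∘ r = id := funext hr
    rw [this, Finsupp.mapDomain_id]
  refine torsion_of_hom _ _ fun l hl => ?_
  have key := alt_zero α o q l hA D e0 hD he hsurj hqD hqS
    (fun r hr => hl _ (quot_mem (X := (curve k K).prod (curve k K)) q hr))
    hv hn (fun i => Finsupp.mapDomain r (a i)) (by
      intro i
      have h4 := ha i
      change (Finsupp.mapDomain r (a i)).sum (fun _ m => m) = 0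
      rw [Finsupp.sum_mapDomain_index (fun _ => rfl) (fun _ _ _ => rfl)]
      exact h4) (by
      intro i
      obtain ⟨N, hN, f, hf, h4⟩ := ha1 i
      refine ⟨N, hN, ?_⟩
      have h5 : Finsupp.linearCombination ℤ
          (fun x : Place k K × Place k K => NN α x.1 + NN α x.2) (Finsupp.mapDomain r (a i)) =
          (a i).sum fun y m => m • pd y := by
        rw [Finsupp.linearCombination_mapDomain, Finsupp.linearCombination_apply]
        refine Finsupp.sum_congr fun y _ => ?_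
        congr 1
        conv_rhs => rw [← hr y, hpd]
        rfl
      rw [h5, h4]
      exact div_mem hf)
  rw [hmap] at key
  exact key

end Pool.Agent.J4.H70.ZV
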